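import Pool.Agent.Lib.H73E.Sound

/-!
# Tables of checked nodes, and splitting a node by the next prime (MP_d0f2af_nt)
-/

set_option autoImplicit false

namespace Pool.Agent.Lib.H73E

open Finset Pool.Agent.Lib.H73D

/-- Equality of lists of entries. -/
def chEq : Ch → Ch → Bool
  | [], [] => true
  | (p, a, b) :: t, (p', a', b') :: t' =>
    Nat.beq p p' && (Nat.beq a a' && ((b == b') && chEq t t'))
  | _, _ => false

theorem e73_chEq : ∀ s t : Ch, chEq s t = true → s = t
  | [], [], _ => rfl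
  | [], _ :: _, h => by simp [chEq] at h
  | _ :: _, [], h => by simp [chEq] at h
  | (p, a, b) :: t, (p', a', b') :: t', h => by
    unfold chEq at h
    rw [Bool.and_eq_true, Bool.and_eq_true, Bool.and_eq_true] at h
    obtain ⟨h1, h2, h3, h4⟩ := h
    rw [Nat.eq_of_beq_eq_true h1, Nat.eq_of_beq_eq_true h2, eq_of_beq h3, e73_chEq t t' h4]

/-- The node is in the table. -/
def inTab (tab : List (Ch × ℕ × ℕ)) (ch : Ch) (last r : ℕ) : Bool :=
  tab.any fun e => Nat.beq last e.2.1 && (Nat.beq r e.2.2 && chEq ch e.1)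

theorem e73_inTab (tab : List (Ch × ℕ × ℕ)) (h : ∀ e ∈ tab, NoC e.1 e.2.1 e.2.2) (ch : Ch) (last r : ℕ)
    (hin : inTab tab ch last r = true) : NoC ch last r := by
  unfold inTab at hin
  rw [List.any_eq_true] at hin
  obtain ⟨e, he, h1⟩ := hin
  rw [Bool.and_eq_true, Bool.and_eq_true] at h1
  rw [Nat.eq_of_beq_eq_true h1.1, Nat.eq_of_beq_eq_true h1.2.1, e73_chEq _ _ h1.2.2]
  exact h e he

/-- Check the nodes obtained from `ch` by the primes in `(last, q0]`. -/
def rng (W W' : ℕ) (base : Ch → ℕ → ℕ → Bool) (ch : Ch) (q0 r last : ℕ) : Bool :=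
  loop (fun q => cond (skip q) true (cond (base ((q, 2, true) :: ch) q r) true
    (chk W W' base 200 ((q, 2, true) :: ch) q r))) (fun q => Nat.ble (q0 + 1) q) 40000 (last + 1)

theorem e73_rng (W W' : ℕ) (base : Ch → ℕ → ℕ → Bool)
    (hb : ∀ (ch : Ch) (last r : ℕ), base ch last r = true → NoC ch last r) (ch : Ch) (q0 r last : ℕ)
    (hlast : 2 ≤ last) (h1 : rng W W' base ch q0 r last = true) (h2 : NoC ch q0 (r + 1)) :
    NoC ch last (r + 1) := by
  intro x hx T v hT hTp
  have hne : T.Nonempty := by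
    rw [← Finset.card_pos]
    omega
  obtain ⟨q, hqdef⟩ : ∃ q, q = T.min' hne := ⟨_, rfl⟩
  have hqT : q ∈ T := by rw [hqdef]; exact Finset.min'_mem T hne
  have hqle : ∀ p ∈ T, q ≤ p := fun p hp => by rw [hqdef]; exact Finset.min'_le T p hp
  obtain ⟨hqp, hql, hqv⟩ := hTp q hqT
  have hq2 : 2 ≤ q := hqp.two_le
  have hsplit : ∏ p ∈ T, F p (v p) = F q (v q) * ∏ p ∈ T.erase q, F p (v p) :=
    (Finset.mul_prod_erase T _ hqT).symm
  by_cases hq0 : q ≤ q0
  · rcases e73_loop _ _ _ _ h1 q (by omega) with h4 | ⟨s, hs1, hs2, hs3⟩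
    · have hno : NoC ((q, 2, true) :: ch) q r := by
        rcases e73_cond h4 with ⟨h4, -⟩ | ⟨-, h4⟩
        · rw [e73_skip q hqp (by omega)] at h4
          exact absurd h4 (by simp)
        · rcases e73_cond h4 with ⟨h4, -⟩ | ⟨-, h4⟩
          · exact hb _ _ _ h4
          · exact e73_sound W W' base hb 200 _ q r hq2 h4
      have h5 := hno (F q (v q) * x)
        ⟨hq2, v q, x, hx, rfl, hqv, fun h => by simp at h⟩ (T.erase q) v
        (by rw [Finset.card_erase_of_mem hqT, hT]; rfl) (fun p hp => by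
          have hpT := Finset.mem_of_mem_erase hp
          have hpne := Finset.ne_of_mem_erase hp
          have := hqle p hpT
          exact ⟨(hTp p hpT).1, by omega, (hTp p hpT).2.2⟩)
      intro h7
      apply h5
      rw [← h7, hsplit]
      ring
    · have := Nat.ble_eq.mp hs3
      omega
  · exact h2 x hx T v hT fun p hp => ⟨(hTp p hp).1, by have := hqle p hp; omega, (hTp p hp).2.2⟩

theorem e73_rng0 (W W' : ℕ) (ch : Ch) (q0 r last : ℕ) (hlast : 2 ≤ last)
    (h1 : rng W W' none0 ch q0 r last = true) (h2 : NoC ch q0 (r + 1)) : NoC ch last (r + 1) :=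
  e73_rng W W' none0 (fun _ _ _ h => by simp [none0] at h) ch q0 r last hlast h1 h2

end Pool.Agent.Lib.H73E
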