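import Mathlib

/-!
# A checker for `∏ F(p, a_p) = 2` with few primes (MP_d0f2af_nt)

A list of entries `(p, a, b)` stands for the products of the values `F p c`, where `c = a` if `b = false` and
`c ≥ a` if `b = true`.
-/

set_option autoImplicit false
namespace Pool.Agent.Lib.H73E

/-- Lists of entries. -/
abbrev Ch := List (ℕ × ℕ × Bool)

/-- Numerator of the lower bound. -/
def lonum : Ch → ℕ := List.rec 1 (fun e _ ih => (e.1 ^ (e.2.1 + 1) - 1) * ih)

/-- Denominator of the lower bound. -/
def loden : Ch → ℕ := List.rec 1 (fun e _ ih => ((e.1 - 1) * (e.1 ^ e.2.1 + 1)) * ih)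

/-- Numerator of the upper bound. -/
def upnum : Ch → ℕ := List.rec 1 (fun e _ ih => cond e.2.2 e.1 (e.1 ^ (e.2.1 + 1) - 1) * ih)

/-- Denominator of the upper bound. -/
def upden : Ch → ℕ := List.rec 1 (fun e _ ih => cond e.2.2 (e.1 - 1) ((e.1 - 1) * (e.1 ^ e.2.1 + 1)) * ih)

/-- The least `p ^ a` of the entries with `b = true`; `0` if there is none. -/
def least : Ch → ℕ
  | [] => 0
  | (p, a, b) :: t => cond b (cond (Nat.beq (least t) 0 || Nat.ble (p ^ a) (least t)) (p ^ a) (least t)) (least t)

/-- Change the first entry with `b = true` and `p ^ a = m`: the exponent is `a`. -/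
def exact1 (m : ℕ) : Ch → Ch
  | [] => []
  | (p, a, b) :: t => cond (b && Nat.beq (p ^ a) m) ((p, a, false) :: t) ((p, a, b) :: exact1 m t)

/-- Change the first entry with `b = true` and `p ^ a = m`: the exponent is at least `a + 1`. -/
def next1 (m : ℕ) : Ch → Ch
  | [] => []
  | (p, a, b) :: t => cond (b && Nat.beq (p ^ a) m) ((p, a + 1, true) :: t) ((p, a, b) :: next1 m t)

/-- Evaluate the argument first. -/
def force (n : ℕ) (k : ℕ → Bool) : Bool := Nat.rec (k 0) (fun m _ => k (Nat.succ m)) n

/-- Loop over `q, q + 1, ...` until `stop`. -/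
def loop (P stop : ℕ → Bool) : ℕ → ℕ → Bool :=
  Nat.rec (fun _ => false) (fun _ ih q => cond (stop q) true (cond (P q) (force (q + 1) ih) false))

/-- Numbers which are not prime. -/
def skip (q : ℕ) : Bool :=
  cond (Nat.ble q 97)
    (!(Nat.beq (Nat.gcd q 30030) 1 || Nat.beq q 3 || Nat.beq q 5 || Nat.beq q 7 || Nat.beq q 11 || Nat.beq q 13))
    (!(Nat.beq (Nat.gcd q 2305567963945518424753102147331756070) 1))

/-- No completion by one prime: the interval for `1 / (F - 1)` is inside `(m + 1 / m, m + 1]`. -/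
def gap1 (ln D un E : ℕ) : Bool :=
  cond (Nat.ble ((ln % D) * (ln / D)) D) false (Nat.ble un ((ln / D + 1) * E))

/-- No completion by `r` primes, for simple reasons. -/
def shutN (ln ld un ud r : ℕ) : Bool :=
  cond (Nat.ble (2 * ld) ln) (cond (Nat.beq r 0) (cond (Nat.ble ln (2 * ld)) false true) true)
    (cond (Nat.ble (2 * ud) un) false (cond (Nat.beq r 0) true (cond (Nat.beq r 1)
      (force (2 * ld - ln) fun D => gap1 ln D un (2 * ud - un)) false)))

/-- One step of the checker. -/
def step (W W' : ℕ) (ih : Ch → ℕ → ℕ → Bool) (ch : Ch) (last r : ℕ) : Bool :=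
  force (lonum ch) fun ln => force (loden ch) fun ld => force (upnum ch) fun un => force (upden ch) fun ud =>
  cond (shutN ln ld un ud r) true <|
  force (least ch) fun m =>
  cond (cond (Nat.ble (2 * ud) un) true (cond (Nat.beq r 0) true
      (cond (Nat.beq m 0) false (Nat.ble (max (last + 1) (ln / (2 * ld - ln)) +
        cond (Nat.beq r 1) W W' + 1) (r * (un / (2 * ud - un)))))))
    (cond (Nat.beq m 0) false (cond (ih (exact1 m ch) last r) (ih (next1 m ch) last r) false))
    (force (max (last + 1) (ln / (2 * ld - ln))) fun s => loop (fun q => cond (skip q) true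
        (cond (cond (shutN ((q ^ 3 - 1) * ln) ((q - 1) * (q ^ 2 + 1) * ld) ((q ^ 3 - 1) * un) ((q - 1) * (q ^ 2 + 1) * ud) (r - 1))
          (shutN ((q ^ 4 - 1) * ln) ((q - 1) * (q ^ 3 + 1) * ld) (q * un) ((q - 1) * ud) (r - 1)) false) true
        (ih ((q, 2, true) :: ch) q (r - 1))))
      (fun q => Nat.ble (un * q ^ r) (2 * ud * (q - 1) ^ r)) 40000 s)

/-- The checker. The nodes in `base` count as checked. -/
def chk (W W' : ℕ) (base : Ch → ℕ → ℕ → Bool) : ℕ → Ch → ℕ → ℕ → Bool :=
  Nat.rec (fun _ _ _ => false) (fun _ ih => step W W' (fun ch last r => cond (base ch last r) true (ih ch last r)))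

/-- No node. -/
def none0 : Ch → ℕ → ℕ → Bool := fun _ _ _ => false

end Pool.Agent.Lib.H73E
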