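import Pool.Agent.Lib.H73E.Base

/-!
# Part A of the search: `3, 5, 13`, two more primes (MP_d0f2af_nt)
-/

set_option autoImplicit false

namespace Pool.Agent.Lib.H73E

/-- First node of part A. -/
def xa1 : Ch := [(13, 2, true), (5, 3, true), (3, 4, false)]

theorem e73_xa1_0 : rng 1 6000 none0 xa1 1181 1 13 = true := by
  decide +kernel

theorem e73_xa1_1 : rng 1 6000 none0 xa1 1613 1 1181 = true := by
  decide +kernel

theorem e73_xa1_2 : chk 1 6000 none0 200 xa1 1613 2 = true := by
  decide +kernel

/-- Second node of part A. -/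
def xa2 : Ch := [(13, 2, false), (5, 3, false), (3, 5, true)]

theorem e73_xa2_0 : rng 1 6000 none0 xa2 3229 1 13 = true := by
  decide +kernel

theorem e73_xa2_1 : chk 1 6000 none0 200 xa2 3229 2 = true := by
  decide +kernel

/-- Third node of part A. -/
def xa3 : Ch := [(13, 3, false), (5, 3, false), (3, 5, false)]

theorem e73_xa3_0 : chk 1 6000 none0 200 xa3 13 2 = true := by
  decide +kernel

/-- The nodes above. -/
def tabA : List (Ch × ℕ × ℕ) := [(xa1, 13, 2), (xa2, 13, 2), (xa3, 13, 2)]

/-- The node of part A. -/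
def xa : Ch := [(13, 2, true), (5, 2, true), (3, 2, true)]

theorem e73_a : chk 1 6000 (inTab tabA) 200 xa 13 2 = true := by
  decide +kernel

end Pool.Agent.Lib.H73E
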