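import Pool.Agent.Lib.H73E.Base

/-!
# Part B of the search: `3, 5, 17`, two more primes (MP_d0f2af_nt)
-/

set_option autoImplicit false

namespace Pool.Agent.Lib.H73E

/-- The node of part B. -/
def xb : Ch := [(17, 2, true), (5, 2, true), (3, 2, true)]

theorem e73_xb_0 : rng 1 6000 none0 xb 163 1 17 = true := by
  decide +kernel

theorem e73_xb_1 : rng 1 6000 none0 xb 239 1 163 = true := by
  decide +kernel

theorem e73_xb_2 : rng 1 6000 none0 xb 257 1 239 = true := by
  decide +kernel

theorem e73_xb_3 : rng 1 6000 none0 xb 281 1 257 = true := by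
  decide +kernel

theorem e73_xb_4 : rng 1 6000 none0 xb 349 1 281 = true := by
  decide +kernel

theorem e73_xb_5 : rng 1 6000 none0 xb 449 1 349 = true := by
  decide +kernel

theorem e73_xb_6 : chk 1 6000 none0 200 xb 449 2 = true := by
  decide +kernel


end Pool.Agent.Lib.H73E
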