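import Pool.Agent.Lib.H73E.Base

/-!
# Part C of the search: the rest for five odd primes (MP_d0f2af_nt)
-/

set_option autoImplicit false

namespace Pool.Agent.Lib.H73E

/-- First node of part C. -/
def xc1 : Ch := [(19, 2, true), (5, 2, true), (3, 2, true)]

theorem e73_xc1_0 : rng 1 6000 none0 xc1 101 1 19 = true := by
  decide +kernel

theorem e73_xc1_1 : chk 1 6000 none0 200 xc1 101 2 = true := by
  decide +kernel

/-- Second node of part C. -/
def xc2 : Ch := [(23, 2, true), (5, 2, true), (3, 2, true)]

theorem e73_xc2_0 : chk 1 6000 none0 200 xc2 23 2 = true := by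
  decide +kernel

/-- Third node of part C. -/
def xc3 : Ch := [(7, 2, true), (3, 2, true)]

theorem e73_xc3_0 : chk 1 6000 none0 200 xc3 7 3 = true := by
  decide +kernel

/-- The nodes of parts A and B, and the nodes above. -/
def tab5 : List (Ch × ℕ × ℕ) := [([(13, 2, true), (5, 2, true), (3, 2, true)], 13, 2),
  ([(17, 2, true), (5, 2, true), (3, 2, true)], 17, 2), (xc1, 19, 2), (xc2, 23, 2), (xc3, 7, 3)]

theorem e73_c : chk 1 6000 (inTab tab5) 200 [] 2 5 = true := by
  decide +kernel

end Pool.Agent.Lib.H73E
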