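import Pool.Agent.Lib.H73E.Base

/-!
# Part D of the search: `2 ^ 8`, `173`, two more primes (MP_d0f2af_nt)
-/

set_option autoImplicit false

namespace Pool.Agent.Lib.H73E

/-- First node of part D. -/
def xd1 : Ch := [(173, 3, true), (2, 8, false)]

theorem e73_xd1_0 : rng 1 20000 none0 xd1 18691 1 173 = true := by
  decide +kernel

theorem e73_xd1_1 : rng 1 20000 none0 xd1 24943 1 18691 = true := by
  decide +kernel

theorem e73_xd1_2 : rng 1 20000 none0 xd1 31313 1 24943 = true := by
  decide +kernel

theorem e73_xd1_3 : chk 1 20000 none0 200 xd1 31313 2 = true := by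
  decide +kernel

/-- The node above. -/
def tabD : List (Ch × ℕ × ℕ) := [(xd1, 173, 2)]

/-- The node of part D. -/
def xd : Ch := [(173, 2, true), (2, 8, false)]

theorem e73_d : chk 1 20000 (inTab tabD) 200 xd 173 2 = true := by
  decide +kernel

end Pool.Agent.Lib.H73E
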