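import Pool.Agent.Lib.H73E.Base

/-!
# Part E of the search: `2 ^ 8` and three more primes (MP_d0f2af_nt)
-/

set_option autoImplicit false

namespace Pool.Agent.Lib.H73E

/-- The node of part D. -/
def tab8 : List (Ch × ℕ × ℕ) := [([(173, 2, true), (2, 8, false)], 173, 2)]

/-- The node of part E. -/
def xe : Ch := [(2, 8, false)]

theorem e73_xe_0 : rng 1 20000 (inTab tab8) xe 173 2 2 = true := by
  decide +kernel

theorem e73_xe_1 : rng 1 20000 none0 xe 179 2 173 = true := by
  decide +kernel

theorem e73_xe_2 : rng 1 20000 none0 xe 191 2 179 = true := by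
  decide +kernel

theorem e73_xe_3 : rng 1 20000 none0 xe 211 2 191 = true := by
  decide +kernel

theorem e73_xe_4 : rng 1 20000 none0 xe 263 2 211 = true := by
  decide +kernel

theorem e73_xe_5 : rng 1 20000 none0 xe 353 2 263 = true := by
  decide +kernel

theorem e73_xe_6 : chk 1 20000 none0 200 xe 353 3 = true := by
  decide +kernel


end Pool.Agent.Lib.H73E
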