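import Pool.Agent.Lib.H73E.Base

/-!
# Part F of the search: small powers of two (MP_d0f2af_nt)
-/

set_option autoImplicit false

namespace Pool.Agent.Lib.H73E

/-- The node for `2 ^ 7`. -/
def xf7 : Ch := [(2, 7, false)]

theorem e73_xf7_0 : rng 1 6000 none0 xf7 101 2 2 = true := by
  decide +kernel

theorem e73_xf7_1 : chk 1 6000 none0 200 xf7 101 3 = true := by
  decide +kernel

theorem e73_f6 : chk 1 6000 none0 200 [(2, 6, false)] 2 3 = true := by
  decide +kernel

theorem e73_f5 : chk 1 6000 none0 200 [(2, 5, false)] 2 3 = true := by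
  decide +kernel

theorem e73_f4 : chk 1 6000 none0 200 [(2, 4, false)] 2 3 = true := by
  decide +kernel

theorem e73_f3 : chk 1 6000 none0 200 [(2, 3, false)] 2 3 = true := by
  decide +kernel

theorem e73_f2 : chk 1 6000 none0 200 [(2, 2, false)] 2 3 = true := by
  decide +kernel

theorem e73_f0 : chk 1 6000 none0 200 [] 2 4 = true := by
  decide +kernel

theorem e73_g2 : chk 1 6000 none0 200 [(2, 2, false)] 2 4 = true := by
  decide +kernel

end Pool.Agent.Lib.H73E
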