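import Pool.Agent.Lib.H73D.Concl
import Pool.Agent.Lib.H73E.PartA
import Pool.Agent.Lib.H73E.PartB
import Pool.Agent.Lib.H73E.PartC
import Pool.Agent.Lib.H73E.PartD
import Pool.Agent.Lib.H73E.PartE
import Pool.Agent.Lib.H73E.PartF

/-!
# Elements of `A` with four or five primes whose squares divide them (MP_d0f2af_nt)
-/

set_option autoImplicit false

namespace Pool.Agent.Lib.H73E

open Finset Pool.Agent.Lib.H73D

theorem e73_no_xa1 : NoC xa1 13 2 :=
  e73_rng0 1 6000 xa1 1181 1 13 (by norm_num) e73_xa1_0 <|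
  e73_rng0 1 6000 xa1 1613 1 1181 (by norm_num) e73_xa1_1 <|
  e73_sound0 1 6000 200 xa1 1613 2 (by norm_num) e73_xa1_2

theorem e73_no_xa2 : NoC xa2 13 2 :=
  e73_rng0 1 6000 xa2 3229 1 13 (by norm_num) e73_xa2_0 <|
  e73_sound0 1 6000 200 xa2 3229 2 (by norm_num) e73_xa2_1

theorem e73_no_xa3 : NoC xa3 13 2 :=
  e73_sound0 1 6000 200 xa3 13 2 (by norm_num) e73_xa3_0

theorem e73_no_xa : NoC xa 13 2 := by
  refine e73_sound 1 6000 (inTab tabA) (e73_inTab tabA ?_) 200 xa 13 2 (by norm_num) e73_a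
  intro e he
  simp only [tabA, List.mem_cons, List.not_mem_nil, or_false] at he
  rcases he with rfl | rfl | rfl
  · exact e73_no_xa1
  · exact e73_no_xa2
  · exact e73_no_xa3

theorem e73_no_xb : NoC xb 17 2 :=
  e73_rng0 1 6000 xb 163 1 17 (by norm_num) e73_xb_0 <|
  e73_rng0 1 6000 xb 239 1 163 (by norm_num) e73_xb_1 <|
  e73_rng0 1 6000 xb 257 1 239 (by norm_num) e73_xb_2 <|
  e73_rng0 1 6000 xb 281 1 257 (by norm_num) e73_xb_3 <|
  e73_rng0 1 6000 xb 349 1 281 (by norm_num) e73_xb_4 <|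
  e73_rng0 1 6000 xb 449 1 349 (by norm_num) e73_xb_5 <|
  e73_sound0 1 6000 200 xb 449 2 (by norm_num) e73_xb_6

theorem e73_no_xc1 : NoC xc1 19 2 :=
  e73_rng0 1 6000 xc1 101 1 19 (by norm_num) e73_xc1_0 <|
  e73_sound0 1 6000 200 xc1 101 2 (by norm_num) e73_xc1_1

theorem e73_no_xc2 : NoC xc2 23 2 :=
  e73_sound0 1 6000 200 xc2 23 2 (by norm_num) e73_xc2_0

theorem e73_no_xc3 : NoC xc3 7 3 :=
  e73_sound0 1 6000 200 xc3 7 3 (by norm_num) e73_xc3_0

theorem e73_noc5 : NoC [] 2 5 := by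
  refine e73_sound 1 6000 (inTab tab5) (e73_inTab tab5 ?_) 200 [] 2 5 le_rfl e73_c
  intro e he
  simp only [tab5, List.mem_cons, List.not_mem_nil, or_false] at he
  rcases he with rfl | rfl | rfl | rfl | rfl
  · exact e73_no_xa
  · exact e73_no_xb
  · exact e73_no_xc1
  · exact e73_no_xc2
  · exact e73_no_xc3

theorem e73_no_xd1 : NoC xd1 173 2 :=
  e73_rng0 1 20000 xd1 18691 1 173 (by norm_num) e73_xd1_0 <|
  e73_rng0 1 20000 xd1 24943 1 18691 (by norm_num) e73_xd1_1 <|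
  e73_rng0 1 20000 xd1 31313 1 24943 (by norm_num) e73_xd1_2 <|
  e73_sound0 1 20000 200 xd1 31313 2 (by norm_num) e73_xd1_3

theorem e73_no_xd : NoC xd 173 2 := by
  refine e73_sound 1 20000 (inTab tabD) (e73_inTab tabD ?_) 200 xd 173 2 (by norm_num) e73_d
  intro e he
  simp only [tabD, List.mem_cons, List.not_mem_nil, or_false] at he
  rw [he]
  exact e73_no_xd1

theorem e73_noc8 : NoC [(2, 8, false)] 2 3 :=
  e73_rng 1 20000 (inTab tab8) (e73_inTab tab8 fun e he => by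
    simp only [tab8, List.mem_cons, List.not_mem_nil, or_false] at he
    rw [he]
    exact e73_no_xd) xe 173 2 2 (by norm_num) e73_xe_0 <|
  e73_rng0 1 20000 xe 179 2 173 (by norm_num) e73_xe_1 <|
  e73_rng0 1 20000 xe 191 2 179 (by norm_num) e73_xe_2 <|
  e73_rng0 1 20000 xe 211 2 191 (by norm_num) e73_xe_3 <|
  e73_rng0 1 20000 xe 263 2 211 (by norm_num) e73_xe_4 <|
  e73_rng0 1 20000 xe 353 2 263 (by norm_num) e73_xe_5 <|
  e73_sound0 1 20000 200 xe 353 3 (by norm_num) e73_xe_6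

theorem e73_noc7 : NoC [(2, 7, false)] 2 3 :=
  e73_rng0 1 6000 xf7 101 2 2 (by norm_num) e73_xf7_0 <|
  e73_sound0 1 6000 200 xf7 101 3 (by norm_num) e73_xf7_1

/-- The primes whose squares divide `n`. -/
theorem e73_mem (n : ℕ) (h : InA n) : ∀ p ∈ n.primeFactors.filter (fun p => p ^ 2 ∣ n),
    p.Prime ∧ 2 ≤ n.factorization p := by
  intro p hp
  have hn0 : n ≠ 0 := by
    have := h.1
    omega
  rw [Finset.mem_filter] at hp
  have hpp := Nat.prime_of_mem_primeFactors hp.1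
  exact ⟨hpp, (hpp.pow_dvd_iff_le_factorization hn0).1 hp.2⟩

/-- The search for odd numbers. -/
theorem e73_odd (n k : ℕ) (h : InA n) (hk : (n.primeFactors.filter (fun p => p ^ 2 ∣ n)).card = k)
    (hno : NoC [] 2 k) : 2 ∈ n.primeFactors.filter (fun p => p ^ 2 ∣ n) := by
  by_contra h2
  have hmem := e73_mem n h
  refine hno 1 rfl _ n.factorization hk ?_ ?_
  · intro p hp
    obtain ⟨hp1, hp2⟩ := hmem p hp
    have h3 := hp1.two_le
    have h5 : p ≠ 2 := fun h5 => h2 (h5 ▸ hp)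
    exact ⟨hp1, by omega, hp2⟩
  · rw [one_mul]
    exact d73_prod2 n h

/-- The search for even numbers. -/
theorem e73_even (n k a : ℕ) (h : InA n) (hk : (n.primeFactors.filter (fun p => p ^ 2 ∣ n)).card = k + 1)
    (h2 : 2 ∈ n.primeFactors.filter (fun p => p ^ 2 ∣ n)) (hno : NoC [(2, a, false)] 2 k) :
    n.factorization 2 ≠ a := by
  obtain ⟨T, hT⟩ : ∃ T, T = n.primeFactors.filter (fun p => p ^ 2 ∣ n) := ⟨_, rfl⟩
  have hmem := e73_mem n h
  have hprod := d73_prod2 n h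
  rw [← hT] at hmem hprod hk h2
  intro hna
  refine hno (F 2 a) ⟨le_rfl, a, 1, rfl, (mul_one _).symm, le_rfl, fun _ => rfl⟩ (T.erase 2) n.factorization
    (by rw [Finset.card_erase_of_mem h2, hk]; rfl) ?_ ?_
  · intro p hp
    have hpT := Finset.mem_of_mem_erase hp
    have hne := Finset.ne_of_mem_erase hp
    obtain ⟨hp1, hp2⟩ := hmem p hpT
    have := hp1.two_le
    exact ⟨hp1, by omega, hp2⟩
  · rw [← hprod, ← Finset.mul_prod_erase T _ h2, hna]

/-- Four primes. -/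
theorem e73_four (n : ℕ) (h : InA n) (h4 : (n.primeFactors.filter (fun p => p ^ 2 ∣ n)).card = 4) :
    2 ^ 9 ∣ n := by
  have hn0 : n ≠ 0 := by
    have := h.1
    omega
  have h2 := e73_odd n 4 h h4 (e73_sound0 1 6000 200 [] 2 4 le_rfl e73_f0)
  rw [Nat.prime_two.pow_dvd_iff_le_factorization hn0]
  have ha2 := (e73_mem n h 2 h2).2
  have k2 := e73_even n 3 2 h h4 h2 (e73_sound0 1 6000 200 _ 2 3 le_rfl e73_f2)
  have k3 := e73_even n 3 3 h h4 h2 (e73_sound0 1 6000 200 _ 2 3 le_rfl e73_f3)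
  have k4 := e73_even n 3 4 h h4 h2 (e73_sound0 1 6000 200 _ 2 3 le_rfl e73_f4)
  have k5 := e73_even n 3 5 h h4 h2 (e73_sound0 1 6000 200 _ 2 3 le_rfl e73_f5)
  have k6 := e73_even n 3 6 h h4 h2 (e73_sound0 1 6000 200 _ 2 3 le_rfl e73_f6)
  have k7 := e73_even n 3 7 h h4 h2 e73_noc7
  have k8 := e73_even n 3 8 h h4 h2 e73_noc8
  omega

/-- Five primes. -/
theorem e73_five (n : ℕ) (h : InA n) (h5 : (n.primeFactors.filter (fun p => p ^ 2 ∣ n)).card = 5) :
    2 ^ 3 ∣ n := by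
  have hn0 : n ≠ 0 := by
    have := h.1
    omega
  have h2 := e73_odd n 5 h h5 e73_noc5
  rw [Nat.prime_two.pow_dvd_iff_le_factorization hn0]
  have ha2 := (e73_mem n h 2 h2).2
  have k2 := e73_even n 4 2 h h5 h2 (e73_sound0 1 6000 200 _ 2 4 le_rfl e73_g2)
  omega

end Pool.Agent.Lib.H73E
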