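import Pool.Agent.Lib.H73D.Fin
import Pool.Agent.Lib.H73E.Chk

/-!
# The checker is sound (MP_d0f2af_nt)
-/

set_option autoImplicit false

namespace Pool.Agent.Lib.H73E

open Finset Pool.Agent.Lib.H73D

/-- The numbers for which a list of entries stands. -/
def Sat : Ch → ℚ → Prop
  | [], x => x = 1
  | (p, a, b) :: t, x => 2 ≤ p ∧ ∃ (c : ℕ) (y : ℚ), Sat t y ∧ x = F p c * y ∧ a ≤ c ∧ (b = false → c = a)

theorem e73_F_mul (p c : ℕ) :
    F p c * (((p : ℚ) - 1) * ((p : ℚ) ^ c + 1)) = (p : ℚ) ^ (c + 1) - 1 := by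
  have h : (0 : ℚ) < (p : ℚ) ^ c + 1 := by positivity
  rw [← d73_geom p c]
  unfold F
  field_simp

theorem e73_F_ge_one (p a : ℕ) (hp : 2 ≤ p) (ha : 1 ≤ a) : 1 ≤ F p a := by
  have h := d73_F_mono p 1 a hp ha
  rwa [d73_F_one] at h

theorem e73_F_two (p : ℕ) : F p 2 * ((p : ℚ) ^ 2 + 1) = (p : ℚ) ^ 2 + p + 1 := by
  have h : (0 : ℚ) < (p : ℚ) ^ 2 + 1 := by positivity
  unfold F
  rw [div_mul_cancel₀ _ h.ne']
  simp only [Finset.sum_range_succ, Finset.sum_range_zero]
  ring

theorem e73_F_gt_one (p a : ℕ) (hp : 2 ≤ p) (ha : 2 ≤ a) : 1 < F p a := by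
  have h := d73_F_mono p 2 a hp ha
  have h2 := e73_F_two p
  have hp' : (2 : ℚ) ≤ p := by exact_mod_cast hp
  refine lt_of_lt_of_le ?_ h
  by_contra hcon
  push Not at hcon
  nlinarith [sq_nonneg (p : ℚ)]

theorem e73_cast (p c : ℕ) (hp : 2 ≤ p) : ((p ^ (c + 1) - 1 : ℕ) : ℚ) = (p : ℚ) ^ (c + 1) - 1 := by
  have h : 1 ≤ p ^ (c + 1) := Nat.one_le_pow _ _ (by omega)
  push_cast [h]
  ring

theorem e73_cast1 (p : ℕ) (hp : 2 ≤ p) : ((p - 1 : ℕ) : ℚ) = (p : ℚ) - 1 := by
  have h : 1 ≤ p := by omega
  push_cast [h]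
  ring

theorem e73_lonum (p a : ℕ) (b : Bool) (t : Ch) :
    lonum ((p, a, b) :: t) = (p ^ (a + 1) - 1) * lonum t := rfl

theorem e73_loden (p a : ℕ) (b : Bool) (t : Ch) :
    loden ((p, a, b) :: t) = ((p - 1) * (p ^ a + 1)) * loden t := rfl

theorem e73_upnum (p a : ℕ) (b : Bool) (t : Ch) :
    upnum ((p, a, b) :: t) = cond b p (p ^ (a + 1) - 1) * upnum t := rfl

theorem e73_upden (p a : ℕ) (b : Bool) (t : Ch) :
    upden ((p, a, b) :: t) = cond b (p - 1) ((p - 1) * (p ^ a + 1)) * upden t := rfl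

theorem e73_force (n : ℕ) (k : ℕ → Bool) : force n k = k n := by
  cases n <;> rfl

theorem e73_cond {b x y : Bool} (h : cond b x y = true) : (b = true ∧ x = true) ∨ (b = false ∧ y = true) := by
  cases b
  · exact Or.inr ⟨rfl, h⟩
  · exact Or.inl ⟨rfl, h⟩

theorem e73_ble_false {a b : ℕ} (h : Nat.ble a b = false) : b < a := by
  by_contra hcon
  push Not at hcon
  have := Nat.ble_eq.mpr hcon
  rw [this] at h
  exact absurd h (by simp)

theorem e73_beq_false {a b : ℕ} (h : Nat.beq a b = false) : a ≠ b := by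
  rintro rfl
  simp at h

theorem e73_lo : ∀ (ch : Ch) (x : ℚ), Sat ch x →
    0 < x ∧ 0 < loden ch ∧ (lonum ch : ℚ) ≤ x * loden ch
  | [], x, h => by
    have hx : x = 1 := h
    subst hx
    simp [loden, lonum]
  | (p, a, b) :: t, x, h => by
    obtain ⟨hp, c, y, hy, hx, hac, -⟩ := h
    obtain ⟨h1, h2, h3⟩ := e73_lo t y hy
    have hFc := d73_F_pos p c hp
    have hp' : (2 : ℚ) ≤ p := by exact_mod_cast hp
    refine ⟨by rw [hx]; positivity, ?_, ?_⟩
    · rw [e73_loden]
      have : 0 < p - 1 := by omega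
      positivity
    · rw [e73_loden, e73_lonum]
      rw [hx, Nat.cast_mul, Nat.cast_mul, e73_cast p a hp, Nat.cast_mul, e73_cast1 p hp,
        ← e73_F_mul p a]
      push_cast
      have h4 := d73_F_mono p a c hp hac
      have h5 : (0 : ℚ) ≤ ((p : ℚ) - 1) * ((p : ℚ) ^ a + 1) := by
        have : (0 : ℚ) ≤ (p : ℚ) - 1 := by linarith
        positivity
      have h6 : F p a * (((p : ℚ) - 1) * ((p : ℚ) ^ a + 1))
          ≤ F p c * (((p : ℚ) - 1) * ((p : ℚ) ^ a + 1)) := mul_le_mul_of_nonneg_right h4 h5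
      have h7 : (0 : ℚ) ≤ y * loden t := by positivity
      have h8 : (0 : ℚ) ≤ F p c * (((p : ℚ) - 1) * ((p : ℚ) ^ a + 1)) := mul_nonneg hFc.le h5
      calc F p a * (((p : ℚ) - 1) * ((p : ℚ) ^ a + 1)) * (lonum t : ℚ)
          ≤ F p c * (((p : ℚ) - 1) * ((p : ℚ) ^ a + 1)) * (y * loden t) :=
            mul_le_mul h6 h3 (by positivity) h8
        _ = F p c * y * (((p : ℚ) - 1) * ((p : ℚ) ^ a + 1) * loden t) := by ring

theorem e73_up : ∀ (ch : Ch) (x : ℚ), Sat ch x →
    0 < upden ch ∧ x * upden ch ≤ (upnum ch : ℚ)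
  | [], x, h => by
    have hx : x = 1 := h
    subst hx
    simp [upden, upnum]
  | (p, a, b) :: t, x, h => by
    have h0 := e73_lo t
    obtain ⟨hp, c, y, hy, hx, hac, hb⟩ := h
    obtain ⟨h1, h2⟩ := e73_up t y hy
    have hy0 := (h0 y hy).1
    have hFc := d73_F_pos p c hp
    have hp' : (2 : ℚ) ≤ p := by exact_mod_cast hp
    have hp1 : 0 < p - 1 := by omega
    cases b with
    | true =>
      refine ⟨?_, ?_⟩
      · rw [e73_upden]
        simp only [cond_true]
        positivity
      · rw [e73_upden, e73_upnum]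
        simp only [cond_true]
        rw [hx, Nat.cast_mul, Nat.cast_mul, e73_cast1 p hp]
        have h3 := d73_F_lt p p c hp le_rfl
        have h4 : (0 : ℚ) < (p : ℚ) - 1 := by linarith
        rw [lt_div_iff₀ h4] at h3
        calc F p c * y * (((p : ℚ) - 1) * upden t) = (F p c * ((p : ℚ) - 1)) * (y * upden t) := by ring
          _ ≤ p * (upnum t : ℚ) := mul_le_mul h3.le h2 (by positivity) (by positivity)
    | false =>
      have hca := hb rfl
      subst hca
      refine ⟨?_, ?_⟩
      · rw [e73_upden]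
        simp only [cond_false]
        positivity
      · rw [e73_upden, e73_upnum]
        simp only [cond_false]
        rw [hx, Nat.cast_mul, Nat.cast_mul, Nat.cast_mul, e73_cast1 p hp, e73_cast p c hp,
          ← e73_F_mul p c]
        push_cast
        have h5 : (0 : ℚ) ≤ F p c * (((p : ℚ) - 1) * ((p : ℚ) ^ c + 1)) := by
          have : (0 : ℚ) ≤ (p : ℚ) - 1 := by linarith
          positivity
        calc F p c * y * (((p : ℚ) - 1) * ((p : ℚ) ^ c + 1) * upden t)
            = F p c * (((p : ℚ) - 1) * ((p : ℚ) ^ c + 1)) * (y * upden t) := by ring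
          _ ≤ F p c * (((p : ℚ) - 1) * ((p : ℚ) ^ c + 1)) * (upnum t : ℚ) :=
            mul_le_mul_of_nonneg_left h2 h5

theorem e73_refine (m : ℕ) : ∀ (ch : Ch) (x : ℚ), Sat ch x → Sat (exact1 m ch) x ∨ Sat (next1 m ch) x
  | [], x, h => Or.inl h
  | (p, a, b) :: t, x, h => by
    obtain ⟨hp, c, y, hy, hx, hac, hb⟩ := h
    unfold exact1 next1
    cases hc : (b && Nat.beq (p ^ a) m) with
    | true =>
      simp only [cond_true]
      rcases hac.eq_or_lt with h1 | h1
      · exact Or.inl ⟨hp, c, y, hy, hx, hac, fun _ => h1.symm⟩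
      · exact Or.inr ⟨hp, c, y, hy, hx, h1, fun h => by simp at h⟩
    | false =>
      simp only [cond_false]
      rcases e73_refine m t y hy with h1 | h1
      · exact Or.inl ⟨hp, c, y, h1, hx, hac, hb⟩
      · exact Or.inr ⟨hp, c, y, h1, hx, hac, hb⟩

theorem e73_loop (P stop : ℕ → Bool) : ∀ (g q : ℕ), loop P stop g q = true → ∀ m, q ≤ m →
    P m = true ∨ ∃ s, q ≤ s ∧ s ≤ m ∧ stop s = true
  | 0, q, h, m, hm => by
    have h' : false = true := h
    exact absurd h' (by simp)
  | g + 1, q, h, m, hm => by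
    have h' : cond (stop q) true (cond (P q) (force (q + 1) (loop P stop g)) false) = true := h
    rcases e73_cond h' with ⟨h1, -⟩ | ⟨-, h1⟩
    · exact Or.inr ⟨q, le_rfl, hm, h1⟩
    · rcases e73_cond h1 with ⟨h2, h3⟩ | ⟨-, h3⟩
      · rw [e73_force] at h3
        rcases hm.eq_or_lt with h4 | h4
        · subst h4
          exact Or.inl h2
        · rcases e73_loop P stop g (q + 1) h3 m h4 with h5 | ⟨s, h5, h6, h7⟩
          · exact Or.inl h5
          · exact Or.inr ⟨s, by omega, h6, h7⟩
      · exact absurd h3 (by simp)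

theorem e73_primorial : (2305567963945518424753102147331756070 : ℕ) =
    ∏ p ∈ (Finset.range 98).filter Nat.Prime, p := by decide +kernel

theorem e73_skip (q : ℕ) (hq : q.Prime) (h3 : 3 ≤ q) : skip q = false := by
  unfold skip
  cases hle : Nat.ble q 97 with
  | true =>
    simp only [cond_true]
    by_cases hg : Nat.gcd q 30030 = 1
    · rw [hg]
      rfl
    · have h1 : q ∣ 30030 := by
        by_contra hcon
        exact hg ((Nat.Prime.coprime_iff_not_dvd hq).mpr hcon)
      have h2 : (30030 : ℕ) = 2 * 3 * 5 * 7 * 11 * 13 := by norm_num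
      rw [h2] at h1
      have h5 : q ∣ 2 ∨ q ∣ 3 ∨ q ∣ 5 ∨ q ∣ 7 ∨ q ∣ 11 ∨ q ∣ 13 := by
        rcases (Nat.Prime.dvd_mul hq).mp h1 with h1 | h1
        · rcases (Nat.Prime.dvd_mul hq).mp h1 with h1 | h1
          · rcases (Nat.Prime.dvd_mul hq).mp h1 with h1 | h1
            · rcases (Nat.Prime.dvd_mul hq).mp h1 with h1 | h1
              · rcases (Nat.Prime.dvd_mul hq).mp h1 with h1 | h1
                · exact Or.inl h1
                · exact Or.inr (Or.inl h1)
              · exact Or.inr (Or.inr (Or.inl h1))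
            · exact Or.inr (Or.inr (Or.inr (Or.inl h1)))
          · exact Or.inr (Or.inr (Or.inr (Or.inr (Or.inl h1))))
        · exact Or.inr (Or.inr (Or.inr (Or.inr (Or.inr h1))))
      rcases h5 with h | h | h | h | h | h
      · have := Nat.le_of_dvd (by norm_num) h
        omega
      · have := (Nat.prime_dvd_prime_iff_eq hq (by norm_num)).mp h
        subst this; rfl
      · have := (Nat.prime_dvd_prime_iff_eq hq (by norm_num)).mp h
        subst this; rfl
      · have := (Nat.prime_dvd_prime_iff_eq hq (by norm_num)).mp h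
        subst this; rfl
      · have := (Nat.prime_dvd_prime_iff_eq hq (by norm_num)).mp h
        subst this; rfl
      · have := (Nat.prime_dvd_prime_iff_eq hq (by norm_num)).mp h
        subst this; rfl
  | false =>
    simp only [cond_false]
    have h97 := e73_ble_false hle
    have hg : Nat.gcd q 2305567963945518424753102147331756070 = 1 := by
      refine (Nat.Prime.coprime_iff_not_dvd hq).mpr fun hd => ?_
      rw [e73_primorial] at hd
      obtain ⟨p, hp, hqp⟩ := (Prime.dvd_finsetProd_iff hq.prime _).mp hd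
      rw [Finset.mem_filter, Finset.mem_range] at hp
      have := (Nat.prime_dvd_prime_iff_eq hq hp.2).mp hqp
      omega
    rw [hg]
    rfl

/-- No completion of the list by `r` primes larger than `last`. -/
def NoC (ch : Ch) (last r : ℕ) : Prop :=
  ∀ x : ℚ, Sat ch x → ∀ (T : Finset ℕ) (v : ℕ → ℕ), T.card = r →
    (∀ p ∈ T, p.Prime ∧ last < p ∧ 2 ≤ v p) → x * ∏ p ∈ T, F p (v p) ≠ 2

theorem e73_prod_ge (T : Finset ℕ) (v : ℕ → ℕ) (h : ∀ p ∈ T, 2 ≤ p ∧ 2 ≤ v p) :
    1 ≤ ∏ p ∈ T, F p (v p) := by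
  rw [← Finset.prod_const_one (s := T)]
  exact Finset.prod_le_prod (fun _ _ => zero_le_one) fun p hp =>
    e73_F_ge_one p (v p) (h p hp).1 (by have := (h p hp).2; omega)

theorem e73_prod_gt (T : Finset ℕ) (v : ℕ → ℕ) (h : ∀ p ∈ T, 2 ≤ p ∧ 2 ≤ v p) (hT : T.Nonempty) :
    1 < ∏ p ∈ T, F p (v p) := by
  rw [← Finset.prod_const_one (s := T)]
  exact Finset.prod_lt_prod_of_nonempty (fun _ _ => zero_lt_one) (fun p hp =>
    e73_F_gt_one p (v p) (h p hp).1 (h p hp).2) hT

theorem e73_F_three (q : ℕ) : F q 3 * ((q : ℚ) ^ 2 - q + 1) = (q : ℚ) ^ 2 + 1 := by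
  have h : (0 : ℚ) < (q : ℚ) ^ 3 + 1 := by positivity
  have h2 : F q 3 * ((q : ℚ) ^ 3 + 1) = ((q : ℚ) + 1) * ((q : ℚ) ^ 2 + 1) := by
    unfold F
    rw [div_mul_cancel₀ _ h.ne']
    simp only [Finset.sum_range_succ, Finset.sum_range_zero]
    ring
  have h3 : ((q : ℚ) ^ 3 + 1) = ((q : ℚ) + 1) * ((q : ℚ) ^ 2 - q + 1) := by ring
  have h4 : (0 : ℚ) < (q : ℚ) + 1 := by positivity
  rw [h3] at h2
  have h5 : ((q : ℚ) + 1) * (F q 3 * ((q : ℚ) ^ 2 - q + 1)) = ((q : ℚ) + 1) * ((q : ℚ) ^ 2 + 1) := by
    linarith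
  exact mul_left_cancel₀ h4.ne' h5

/-- The numbers in the gap are not values of `1 / (F - 1)`. -/
theorem e73_gap (q c m : ℕ) (hq : 2 ≤ q) (hc : 2 ≤ c)
    (hA : (F q c - 1) * ((m : ℚ) ^ 2 + 1) < m) (hB : 1 ≤ (F q c - 1) * (m + 1)) : False := by
  have hq' : (2 : ℚ) ≤ q := by exact_mod_cast hq
  rcases hc.eq_or_lt with h2 | h3
  · subst h2
    have hF := e73_F_two q
    have e1 : (F q 2 - 1) * ((q : ℚ) ^ 2 + 1) = q := by linarith
    have p1 : (0 : ℚ) < (q : ℚ) ^ 2 + 1 := by positivity
    have h1 : (q : ℚ) * ((m : ℚ) ^ 2 + 1) < m * ((q : ℚ) ^ 2 + 1) := by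
      calc (q : ℚ) * ((m : ℚ) ^ 2 + 1) = (F q 2 - 1) * ((m : ℚ) ^ 2 + 1) * ((q : ℚ) ^ 2 + 1) := by
            linear_combination (-((m : ℚ) ^ 2 + 1)) * e1
        _ < m * ((q : ℚ) ^ 2 + 1) := mul_lt_mul_of_pos_right hA p1
    have h2 : (q : ℚ) ^ 2 + 1 ≤ q * (m + 1) := by
      calc (q : ℚ) ^ 2 + 1 = 1 * ((q : ℚ) ^ 2 + 1) := by ring
        _ ≤ (F q 2 - 1) * (m + 1) * ((q : ℚ) ^ 2 + 1) := mul_le_mul_of_nonneg_right hB p1.le
        _ = q * (m + 1) := by linear_combination ((m : ℚ) + 1) * e1
    have h3 : q ^ 2 + 1 ≤ q * (m + 1) := by exact_mod_cast h2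
    have h4 : q ≤ m := by
      by_contra hcon
      push Not at hcon
      nlinarith
    have h4' : (q : ℚ) ≤ m := by exact_mod_cast h4
    have h5 : (0 : ℚ) ≤ (m - q) * (q * m - 1) := by
      refine mul_nonneg (by linarith) ?_
      nlinarith
    nlinarith
  · have hF := e73_F_three q
    have hm := d73_F_mono q 3 c hq h3
    have hl := d73_F_lt q q c hq le_rfl
    have p0 : (0 : ℚ) < (q : ℚ) - 1 := by linarith
    rw [lt_div_iff₀ p0] at hl
    have e1 : (F q 3 - 1) * ((q : ℚ) ^ 2 - q + 1) = q := by linarith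
    have p1 : (0 : ℚ) < (q : ℚ) ^ 2 - q + 1 := by nlinarith
    have p2 : (0 : ℚ) < (m : ℚ) ^ 2 + 1 := by positivity
    have p3 : (0 : ℚ) < (m : ℚ) + 1 := by positivity
    have h1 : (q : ℚ) * ((m : ℚ) ^ 2 + 1) < m * ((q : ℚ) ^ 2 - q + 1) := by
      calc (q : ℚ) * ((m : ℚ) ^ 2 + 1) = (F q 3 - 1) * ((m : ℚ) ^ 2 + 1) * ((q : ℚ) ^ 2 - q + 1) := by
            linear_combination (-((m : ℚ) ^ 2 + 1)) * e1
        _ ≤ (F q c - 1) * ((m : ℚ) ^ 2 + 1) * ((q : ℚ) ^ 2 - q + 1) := by
            refine mul_le_mul_of_nonneg_right (mul_le_mul_of_nonneg_right (by linarith) p2.le) p1.le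
        _ < m * ((q : ℚ) ^ 2 - q + 1) := mul_lt_mul_of_pos_right hA p1
    have h2 : (q : ℚ) - 1 < m + 1 := by
      have h3 : (F q c - 1) * ((q : ℚ) - 1) < 1 := by linarith
      have h4 : 1 * ((q : ℚ) - 1) ≤ (F q c - 1) * (m + 1) * ((q : ℚ) - 1) :=
        mul_le_mul_of_nonneg_right hB p0.le
      have h5 : (F q c - 1) * (m + 1) * ((q : ℚ) - 1) < 1 * (m + 1) := by
        have := mul_lt_mul_of_pos_right h3 p3
        linarith
      linarith
    have h3 : q < m + 2 := by
      have h4 : (q : ℚ) < m + 2 := by linarith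
      exact_mod_cast h4
    have h4 : (q : ℚ) ≤ m + 1 := by
      have : q ≤ m + 1 := by omega
      exact_mod_cast this
    obtain ⟨t, ht⟩ : ∃ t : ℚ, t = m + 1 - q := ⟨_, rfl⟩
    have ht0 : 0 ≤ t := by linarith
    have hm' : (m : ℚ) = q - 1 + t := by linarith
    rw [hm'] at h1
    have h5 : (0 : ℚ) ≤ t * ((q : ℚ) ^ 2 - q - 1) := mul_nonneg ht0 (by nlinarith)
    have h6 : (0 : ℚ) ≤ q * t ^ 2 := by positivity
    nlinarith

/-- `shutN` for a list. -/
def shut (ch : Ch) (r : ℕ) : Bool := shutN (lonum ch) (loden ch) (upnum ch) (upden ch) r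

theorem e73_shut (ch : Ch) (last r : ℕ) (h : shut ch r = true) : NoC ch last r := by
  intro x hx T v hT hTp
  have hT2 : ∀ p ∈ T, 2 ≤ p ∧ 2 ≤ v p := fun p hp => ⟨(hTp p hp).1.two_le, (hTp p hp).2.2⟩
  obtain ⟨hx0, hld, hlo⟩ := e73_lo ch x hx
  obtain ⟨hud, hup⟩ := e73_up ch x hx
  have hge := e73_prod_ge T v hT2
  have hld' : (0 : ℚ) < loden ch := by exact_mod_cast hld
  have hud' : (0 : ℚ) < upden ch := by exact_mod_cast hud
  unfold shut shutN at h
  rcases e73_cond h with ⟨h1, h2⟩ | ⟨h1, h2⟩
  · have h3 : 2 * loden ch ≤ lonum ch := Nat.ble_eq.mp h1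
    rcases e73_cond h2 with ⟨h4, h5⟩ | ⟨h4, -⟩
    · rcases e73_cond h5 with ⟨-, h6⟩ | ⟨h6, -⟩
      · exact absurd h6 (by simp)
      · have h7 := e73_ble_false h6
        have h8 : (2 : ℚ) * loden ch < lonum ch := by exact_mod_cast h7
        have h9 : 2 < x := by
          by_contra hcon
          push Not at hcon
          nlinarith
        have h10 : x * 1 ≤ x * ∏ p ∈ T, F p (v p) := mul_le_mul_of_nonneg_left hge hx0.le
        intro h7
        linarith
    · have hr : r ≠ 0 := e73_beq_false h4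
      have h8 : (2 : ℚ) * loden ch ≤ lonum ch := by exact_mod_cast h3
      have h5 : 2 ≤ x := by
        by_contra hcon
        push Not at hcon
        nlinarith
      have hne : T.Nonempty := by
        rw [← Finset.card_pos]
        omega
      have h6 : x * 1 < x * ∏ p ∈ T, F p (v p) :=
        mul_lt_mul_of_pos_left (e73_prod_gt T v hT2 hne) hx0
      intro h7
      linarith
  · have hlt : lonum ch < 2 * loden ch := e73_ble_false h1
    rcases e73_cond h2 with ⟨-, h6⟩ | ⟨h3, h4⟩
    · exact absurd h6 (by simp)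
    have h3 : upnum ch < 2 * upden ch := e73_ble_false h3
    have h3q : (upnum ch : ℚ) < 2 * upden ch := by exact_mod_cast h3
    rcases e73_cond h4 with ⟨h5, -⟩ | ⟨-, h5⟩
    · have hr : r = 0 := Nat.eq_of_beq_eq_true h5
      rw [hr] at hT
      rw [Finset.card_eq_zero] at hT
      rw [hT, Finset.prod_empty, mul_one]
      intro h7
      rw [h7] at hup
      linarith
    · rcases e73_cond h5 with ⟨h5, h6⟩ | ⟨-, h6⟩
      swap
      · exact absurd h6 (by simp)
      rw [e73_force] at h6
      have hr : r = 1 := Nat.eq_of_beq_eq_true h5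
      subst hr
      obtain ⟨q, rfl⟩ := Finset.card_eq_one.mp hT
      obtain ⟨hqp, -, hqv⟩ := hTp q (Finset.mem_singleton_self q)
      have hq2 := hqp.two_le
      rw [Finset.prod_singleton]
      intro h7
      unfold gap1 at h6
      obtain ⟨D, hD⟩ : ∃ D, D = 2 * loden ch - lonum ch := ⟨_, rfl⟩
      obtain ⟨E, hE⟩ : ∃ E, E = 2 * upden ch - upnum ch := ⟨_, rfl⟩
      rw [← hD, ← hE] at h6
      rcases e73_cond h6 with ⟨-, h8⟩ | ⟨h8, h9⟩
      · exact absurd h8 (by simp)
      have hgA : D < (lonum ch % D) * (lonum ch / D) := e73_ble_false h8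
      have hgB : upnum ch ≤ (lonum ch / D + 1) * E := Nat.ble_eq.mp h9
      have hDq : (D : ℚ) = 2 * loden ch - lonum ch := by
        rw [hD, Nat.cast_sub hlt.le]
        push_cast
        ring
      have hEq : (E : ℚ) = 2 * upden ch - upnum ch := by
        rw [hE, Nat.cast_sub h3.le]
        push_cast
        ring
      have hD0 : (0 : ℚ) < D := by
        have : (lonum ch : ℚ) < 2 * loden ch := by exact_mod_cast hlt
        rw [hDq]; linarith
      have hE0 : (0 : ℚ) < E := by
        rw [hEq]; linarith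
      have hG0 := e73_F_gt_one q (v q) hq2 hqv
      obtain ⟨m, hm⟩ : ∃ m, m = lonum ch / D := ⟨_, rfl⟩
      obtain ⟨R, hR⟩ : ∃ R, R = lonum ch % D := ⟨_, rfl⟩
      have hdm : D * m + R = lonum ch := by rw [hm, hR]; exact Nat.div_add_mod _ _
      rw [← hm, ← hR] at hgA
      rw [← hm] at hgB
      have hdm' : (D : ℚ) * m + R = lonum ch := by exact_mod_cast hdm
      have hgA' : (D : ℚ) < R * m := by exact_mod_cast hgA
      have hgB' : (upnum ch : ℚ) ≤ (m + 1) * E := by exact_mod_cast hgB
      obtain ⟨G, hG⟩ : ∃ G, G = F q (v q) - 1 := ⟨_, rfl⟩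
      have hG1 : 0 < G := by rw [hG]; linarith
      have hxG : x * (1 + G) = 2 := by rw [hG, ← h7]; ring
      have hA1 : G * lonum ch ≤ D := by
        have h8 : (1 + G) * (lonum ch : ℚ) ≤ (1 + G) * (x * loden ch) :=
          mul_le_mul_of_nonneg_left hlo (by linarith)
        have h9 : (1 + G) * (x * loden ch) = 2 * loden ch := by
          rw [← hxG]; ring
        rw [hDq]
        linarith
      have hB1 : (E : ℚ) ≤ G * upnum ch := by
        have h8 : (1 + G) * (x * upden ch) ≤ (1 + G) * (upnum ch : ℚ) :=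
          mul_le_mul_of_nonneg_left hup (by linarith)
        have h9 : (1 + G) * (x * upden ch) = 2 * upden ch := by
          rw [← hxG]; ring
        rw [hEq]
        linarith
      have hm0 : (0 : ℚ) ≤ m := by positivity
      refine e73_gap q (v q) m hq2 hqv ?_ ?_
      · rw [← hG]
        have h8 : m * (G * lonum ch) ≤ m * D := mul_le_mul_of_nonneg_left hA1 hm0
        have h9 : G * (D * ((m : ℚ) ^ 2 + 1)) < G * (m * lonum ch) := by
          refine mul_lt_mul_of_pos_left ?_ hG1
          rw [← hdm']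
          nlinarith
        have h10 : D * (G * ((m : ℚ) ^ 2 + 1)) < D * m := by
          calc D * (G * ((m : ℚ) ^ 2 + 1)) = G * (D * ((m : ℚ) ^ 2 + 1)) := by ring
            _ < G * (m * lonum ch) := h9
            _ = m * (G * lonum ch) := by ring
            _ ≤ m * D := h8
            _ = D * m := by ring
        exact lt_of_mul_lt_mul_left h10 hD0.le
      · rw [← hG]
        have h8 : (E : ℚ) * 1 ≤ E * (G * (m + 1)) := by
          calc (E : ℚ) * 1 = E := by ring
            _ ≤ G * upnum ch := hB1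
            _ ≤ G * ((m + 1) * E) := mul_le_mul_of_nonneg_left hgB' hG1.le
            _ = E * (G * (m + 1)) := by ring
        exact le_of_mul_le_mul_left h8 hE0

theorem e73_step (W W' : ℕ) (ih : Ch → ℕ → ℕ → Bool)
    (hih : ∀ (ch : Ch) (last r : ℕ), 2 ≤ last → ih ch last r = true → NoC ch last r)
    (ch : Ch) (last r : ℕ) (hlast : 2 ≤ last) (h : step W W' ih ch last r = true) : NoC ch last r := by
    intro x hx T v hT hTp
    have hT2 : ∀ p ∈ T, 2 ≤ p ∧ 2 ≤ v p := fun p hp => ⟨(hTp p hp).1.two_le, (hTp p hp).2.2⟩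
    obtain ⟨hx0, hld, hlo⟩ := e73_lo ch x hx
    obtain ⟨hud, hup⟩ := e73_up ch x hx
    have hge := e73_prod_ge T v hT2
    have hld' : (0 : ℚ) < loden ch := by exact_mod_cast hld
    have hud' : (0 : ℚ) < upden ch := by exact_mod_cast hud
    unfold step at h
    simp only [e73_force] at h
    rcases e73_cond h with ⟨h1, -⟩ | ⟨h1, h⟩
    · exact e73_shut ch last r h1 x hx T v hT hTp
    · rcases e73_cond h with ⟨-, h⟩ | ⟨h3, h⟩
      · rcases e73_cond h with ⟨-, h6⟩ | ⟨-, h⟩
        · exact absurd h6 (by simp)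
        · rcases e73_cond h with ⟨h5, h6⟩ | ⟨-, h6⟩
          · rcases e73_refine (least ch) ch x hx with h4 | h4
            · exact hih _ last r hlast h5 x h4 T v hT hTp
            · exact hih _ last r hlast h6 x h4 T v hT hTp
          · exact absurd h6 (by simp)
      · have hr : r ≠ 0 := by
          rintro rfl
          revert h3
          cases Nat.ble (2 * upden ch) (upnum ch) <;> simp
        have hne : T.Nonempty := by
          rw [← Finset.card_pos]
          omega
        obtain ⟨q, hqdef⟩ : ∃ q, q = T.min' hne := ⟨_, rfl⟩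
        have hqT : q ∈ T := by rw [hqdef]; exact Finset.min'_mem T hne
        have hqle : ∀ p ∈ T, q ≤ p := fun p hp => by rw [hqdef]; exact Finset.min'_le T p hp
        obtain ⟨hqp, hql, hqv⟩ := hTp q hqT
        have hq2 : 2 ≤ q := hqp.two_le
        have hq2' : (2 : ℚ) ≤ q := by exact_mod_cast hq2
        have hsplit : ∏ p ∈ T, F p (v p) = F q (v q) * ∏ p ∈ T.erase q, F p (v p) :=
          (Finset.mul_prod_erase T _ hqT).symm
        by_cases hstart : max (last + 1) (lonum ch / (2 * loden ch - lonum ch)) ≤ q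
        · rcases e73_loop _ _ _ _ h q hstart with h4 | ⟨s, hs1, hs2, hs3⟩
          · rcases e73_cond h4 with ⟨h4, -⟩ | ⟨-, h4⟩
            · rw [e73_skip q hqp (by omega)] at h4
              exact absurd h4 (by simp)
            rcases e73_cond h4 with ⟨h4, -⟩ | ⟨-, h4⟩
            · rcases e73_cond h4 with ⟨hA4, hB4⟩ | ⟨-, h6⟩
              swap
              · exact absurd h6 (by simp)
              have hcard : (T.erase q).card = r - 1 := by rw [Finset.card_erase_of_mem hqT, hT]
              have hrest : ∀ p ∈ T.erase q, p.Prime ∧ q < p ∧ 2 ≤ v p := fun p hp => by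
                have hpT := Finset.mem_of_mem_erase hp
                have hpne := Finset.ne_of_mem_erase hp
                have := hqle p hpT
                exact ⟨(hTp p hpT).1, by omega, (hTp p hpT).2.2⟩
              have hfin : F q (v q) * x * ∏ p ∈ T.erase q, F p (v p) ≠ 2 := by
                rcases hqv.eq_or_lt with h6 | h6
                · exact e73_shut ((q, 2, false) :: ch) q (r - 1) hA4 (F q (v q) * x)
                    ⟨hq2, v q, x, hx, rfl, hqv, fun _ => h6.symm⟩ (T.erase q) v hcard hrest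
                · exact e73_shut ((q, 3, true) :: ch) q (r - 1) hB4 (F q (v q) * x)
                    ⟨hq2, v q, x, hx, rfl, h6, fun h => by simp at h⟩ (T.erase q) v hcard hrest
              intro h7
              apply hfin
              rw [← h7, hsplit]
              ring
            · have h5 := hih _ q (r - 1) hq2 h4 (F q (v q) * x)
                ⟨hq2, v q, x, hx, rfl, hqv, fun h => by simp at h⟩ (T.erase q) v
                (by rw [Finset.card_erase_of_mem hqT, hT]) (fun p hp => by
                  have hpT := Finset.mem_of_mem_erase hp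
                  have hpne := Finset.ne_of_mem_erase hp
                  have := hqle p hpT
                  exact ⟨(hTp p hpT).1, by omega, (hTp p hpT).2.2⟩)
              intro h7
              apply h5
              rw [← h7, hsplit]
              ring
          · have hs3' : upnum ch * s ^ r ≤ 2 * upden ch * (s - 1) ^ r := Nat.ble_eq.mp hs3
            have hs : 2 ≤ s := by
              have := le_trans (le_max_left _ _) hs1
              omega
            have hs' : (2 : ℚ) ≤ s := by exact_mod_cast hs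
            have hs1' : (0 : ℚ) < (s : ℚ) - 1 := by linarith
            have h4 : (upnum ch : ℚ) * (s : ℚ) ^ r ≤ 2 * upden ch * ((s : ℚ) - 1) ^ r := by
              rw [← e73_cast1 s hs]
              exact_mod_cast hs3'
            have h5 : ∏ p ∈ T, F p (v p) < ∏ _p ∈ T, ((s : ℚ) / ((s : ℚ) - 1)) :=
              Finset.prod_lt_prod_of_nonempty (fun p hp => d73_F_pos p _ (hT2 p hp).1)
                (fun p hp => d73_F_lt p s (v p) hs (hs2.trans (hqle p hp))) hne
            rw [Finset.prod_const, hT, div_pow, lt_div_iff₀ (pow_pos hs1' r)] at h5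
            intro h7
            have h8 : x * upden ch * (s : ℚ) ^ r ≤ (upnum ch : ℚ) * (s : ℚ) ^ r :=
              mul_le_mul_of_nonneg_right hup (by positivity)
            have h9 : x * upden ch * ((∏ p ∈ T, F p (v p)) * ((s : ℚ) - 1) ^ r)
                < x * upden ch * (s : ℚ) ^ r := mul_lt_mul_of_pos_left h5 (by positivity)
            have h10 : x * upden ch * ((∏ p ∈ T, F p (v p)) * ((s : ℚ) - 1) ^ r)
                = 2 * upden ch * ((s : ℚ) - 1) ^ r := by
              rw [← h7]; ring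
            linarith
        · push Not at hstart
          have h4 : q < lonum ch / (2 * loden ch - lonum ch) := by
            rcases lt_max_iff.mp hstart with h5 | h5
            · omega
            · exact h5
          have hlt : lonum ch < 2 * loden ch := by
            by_contra hcon
            push Not at hcon
            have h5 : Nat.beq r 0 = false := by
              cases hb : Nat.beq r 0 with
              | true => exact absurd (Nat.eq_of_beq_eq_true hb) hr
              | false => rfl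
            unfold shutN at h1
            rw [Nat.ble_eq.mpr hcon, h5] at h1
            exact absurd h1 (by simp)
          have h5 : (q + 1) * (2 * loden ch - lonum ch) ≤ lonum ch :=
            (Nat.mul_le_mul_right _ h4).trans (Nat.div_mul_le_self _ _)
          have h6 : ((q : ℚ) + 1) * (2 * loden ch - lonum ch) ≤ lonum ch := by
            have h7 : (((q + 1) * (2 * loden ch - lonum ch) : ℕ) : ℚ) ≤ ((lonum ch : ℕ) : ℚ) := by
              exact_mod_cast h5
            rw [Nat.cast_mul, Nat.cast_sub hlt.le] at h7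
            push_cast at h7
            exact h7
          have hF2 := e73_F_two q
          have hFm := d73_F_mono q 2 (v q) hq2 hqv
          have h8 : 2 < x * F q (v q) := by
            have h9 : (0 : ℚ) < (q : ℚ) ^ 2 + 1 := by positivity
            have hd : (0 : ℚ) < 2 * loden ch - lonum ch := by
              have : (lonum ch : ℚ) < 2 * loden ch := by exact_mod_cast hlt
              linarith
            have h10 : (2 : ℚ) * loden ch * ((q : ℚ) ^ 2 + 1) < lonum ch * ((q : ℚ) ^ 2 + q + 1) := by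
              nlinarith [mul_le_mul_of_nonneg_left h6 (show (0 : ℚ) ≤ q by linarith)]
            have h11 : (lonum ch : ℚ) * ((q : ℚ) ^ 2 + q + 1) ≤ x * loden ch * (F q (v q) * ((q : ℚ) ^ 2 + 1)) := by
              rw [← hF2]
              have h12 : F q 2 * ((q : ℚ) ^ 2 + 1) ≤ F q (v q) * ((q : ℚ) ^ 2 + 1) :=
                mul_le_mul_of_nonneg_right hFm h9.le
              have h13 := d73_F_pos q 2 hq2
              exact mul_le_mul hlo h12 (by positivity) (by positivity)
            have h14 : (2 : ℚ) * (loden ch * ((q : ℚ) ^ 2 + 1)) < (x * F q (v q)) * (loden ch * ((q : ℚ) ^ 2 + 1)) := by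
              calc (2 : ℚ) * (loden ch * ((q : ℚ) ^ 2 + 1)) = 2 * loden ch * ((q : ℚ) ^ 2 + 1) := by ring
                _ < _ := h10.trans_le h11
                _ = _ := by ring
            exact lt_of_mul_lt_mul_right h14 (by positivity)
          have h9 : 1 ≤ ∏ p ∈ T.erase q, F p (v p) :=
            e73_prod_ge _ v fun p hp => hT2 p (Finset.mem_of_mem_erase hp)
          intro h7
          rw [hsplit] at h7
          have h10 : x * F q (v q) * 1 ≤ x * F q (v q) * ∏ p ∈ T.erase q, F p (v p) :=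
            mul_le_mul_of_nonneg_left h9 (by linarith)
          linarith

/-- The checker is sound. -/
theorem e73_sound (W W' : ℕ) (base : Ch → ℕ → ℕ → Bool)
    (hb : ∀ (ch : Ch) (last r : ℕ), base ch last r = true → NoC ch last r) :
    ∀ (f : ℕ) (ch : Ch) (last r : ℕ), 2 ≤ last → chk W W' base f ch last r = true → NoC ch last r
  | 0, ch, last, r, _, h => by
    have h' : false = true := h
    exact absurd h' (by simp)
  | f + 1, ch, last, r, hlast, h =>
    e73_step W W' (fun ch last r => cond (base ch last r) true (chk W W' base f ch last r))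
      (fun ch last r h2 h3 => by
        rcases e73_cond h3 with ⟨h3, -⟩ | ⟨-, h3⟩
        · exact hb ch last r h3
        · exact e73_sound W W' base hb f ch last r h2 h3) ch last r hlast h

theorem e73_sound0 (W W' f : ℕ) (ch : Ch) (last r : ℕ) (hlast : 2 ≤ last)
    (h : chk W W' none0 f ch last r = true) : NoC ch last r :=
  e73_sound W W' none0 (fun _ _ _ h => by simp [none0] at h) f ch last r hlast h

end Pool.Agent.Lib.H73E
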